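import Pool.Agent.Helper15.TS.St

/-!
Assembly.
-/

namespace Pool.Agent.Helper15.TS

open Pool.Agent.Helper22.FL Pool.Agent.Helper22.CS

variable {n : ℕ}

theorem comLang_empty_cf : (comLang (∅ : Set (Fin n → ℕ))).IsContextFree := by
  have h : comLang (∅ : Set (Fin n → ℕ)) = lang (∅ : Set (ContextFreeRule (Fin n) Unit)) () := by
    ext w
    constructor
    · intro h
      exact h.elim
    · intro hw
      rw [mem_lang, der_nt_iff] at hw
      obtain ⟨r, hr, _⟩ := hw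
      exact hr.elim
  rw [h]
  exact isContextFree_lang Set.finite_empty _

theorem comLang_sUnion_cf {𝒟 : Set (Set (Fin n → ℕ))} (hf : 𝒟.Finite)
    (h : ∀ D ∈ 𝒟, (comLang D).IsContextFree) : (comLang (⋃₀ 𝒟)).IsContextFree := by
  induction 𝒟, hf using Set.Finite.induction_on with
  | empty =>
    rw [Set.sUnion_empty]
    exact comLang_empty_cf
  | @insert D 𝒟 _ _ ih =>
    have h1 : comLang (⋃₀ insert D 𝒟) = comLang D ⊔ comLang (⋃₀ 𝒟) := by
      ext w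
      change parikh w ∈ ⋃₀ insert D 𝒟 ↔ parikh w ∈ D ∨ parikh w ∈ ⋃₀ 𝒟
      rw [Set.sUnion_insert]
      rfl
    rw [h1]
    exact isContextFree_sup (h D (Set.mem_insert _ _))
      (ih fun D' hD' => h D' (Set.mem_insert_of_mem _ hD'))

theorem IsMod.mul {P : Finset (Fin n → ℕ)} {d : ℕ} (h : IsMod P d) (e : ℕ) :
    IsMod P (d * e) := by
  intro z hz
  obtain ⟨m, hm⟩ := h z hz
  refine ⟨fun p => e * m p, fun i => ?_⟩
  have h1 := hm i
  push_cast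
  calc ((d : ℤ) * e) * z i = e * (d * z i) := by ring
    _ = ∑ p ∈ P, e * m p * (p i : ℤ) := by
      rw [h1, Finset.mul_sum]
      exact Finset.sum_congr rfl fun p _ => by ring

theorem exists_modulus (hMOD : StMOD) {ι : Type} (A : Finset ι)
    (f : ι → Finset (Fin n → ℕ)) : ∃ d : ℕ, 1 ≤ d ∧ ∀ a ∈ A, IsMod (f a) d := by
  classical
  induction A using Finset.induction_on with
  | empty => exact ⟨1, le_rfl, by simp⟩
  | insert a A _ ih =>
    obtain ⟨d, hd, h⟩ := ih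
    obtain ⟨e, he, h'⟩ := hMOD n (f a)
    refine ⟨d * e, Nat.one_le_iff_ne_zero.2 (mul_ne_zero (by omega) (by omega)), ?_⟩
    intro b hb
    rcases Finset.mem_insert.1 hb with rfl | hb
    · rw [mul_comm]
      exact h'.mul d
    · exact (h b hb).mul e

theorem decompose (hREP : StREP) (hMOD : StMOD) (hCAB : StCAB) (hCOV : StCOV)
    (S : Set (Fin n → ℕ)) (hS : IsSemilinearSet S) (hslim : Slim S) (hT : TestCF S) :
    ∃ 𝒟 : Set (Set (Fin n → ℕ)), 𝒟.Finite ∧ S = ⋃₀ 𝒟 ∧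
      ∀ D ∈ 𝒟, IsTwoLetter D ∨ IsSection D := by
  classical
  obtain ⟨R, hR⟩ := hREP n S hS
  obtain ⟨d, hd, hmod⟩ := exists_modulus hMOD (R ×ˢ (Finset.univ : Finset (Finset (Fin n))))
    (fun a => restr a.1.2 a.2)
  have h1 := hCAB n S R hS hR hslim hT d hd
    (fun r hr J => hmod (r, J) (Finset.mem_product.2 ⟨hr, Finset.mem_univ _⟩))
  have h2 := hCOV n S d hd h1
  have hsub : ∀ r ∈ R, lin r.1 r.2 ⊆ S := fun r hr x hx => (hR.2 x).2 ⟨r, hr, hx⟩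
  have h3 : ∀ r : R, ∃ 𝒟 : Set (Set (Fin n → ℕ)), 𝒟.Finite ∧
      (∀ D ∈ 𝒟, (IsTwoLetter D ∨ IsSection D) ∧ D ⊆ S) ∧ lin r.1.1 r.1.2 ⊆ ⋃₀ 𝒟 :=
    fun r => h2 r.1.2 r.1.1 (hsub r.1 r.2)
  choose F hF1 hF2 hF3 using h3
  refine ⟨⋃ r : R, F r, Set.finite_iUnion hF1, ?_, ?_⟩
  · apply Set.Subset.antisymm
    · intro x hx
      obtain ⟨r, hr, hxr⟩ := (hR.2 x).1 hx
      obtain ⟨D, hD, hxD⟩ := hF3 ⟨r, hr⟩ hxr
      exact ⟨D, Set.mem_iUnion.2 ⟨⟨r, hr⟩, hD⟩, hxD⟩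
    · rintro x ⟨D, hD, hxD⟩
      obtain ⟨r, hr⟩ := Set.mem_iUnion.1 hD
      exact (hF2 r D hr).2 hxD
  · intro D hD
    obtain ⟨r, hr⟩ := Set.mem_iUnion.1 hD
    exact (hF2 r D hr).1

theorem main (hREP : StREP) (hMOD : StMOD) (hCAB : StCAB) (hCOV : StCOV) (hTWO : StTWO)
    (hSEC : StSEC) (hSLI : StSLI) (L : Language (Fin n))
    (hL : IsSemilinearSet (parikh '' L)) (hslim : Slim (parikh '' L)) :
    List.TFAE [(comm L).IsContextFree,
      ∀ z u v w : List (Fin n), u ≠ [] → v ≠ [] → w ≠ [] →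
        (comm L ⊓ threeStar z u v w).IsContextFree,
      ∃ 𝒟 : Set (Set (Fin n → ℕ)), 𝒟.Finite ∧ parikh '' L = ⋃₀ 𝒟 ∧
        ∀ D ∈ 𝒟, IsTwoLetter D ∨ IsSection D] := by
  rw [comm_eq_comLang]
  tfae_have 1 → 2 := fun h => hSLI n _ h
  tfae_have 2 → 3 := fun h => decompose hREP hMOD hCAB hCOV _ hL hslim h
  tfae_have 3 → 1 := by
    rintro ⟨𝒟, hf, he, h⟩
    rw [he]
    refine comLang_sUnion_cf hf fun D hD => ?_
    rcases h D hD with ⟨c, P, hP, rfl⟩ | ⟨I, a, d, α, k, hd, rfl⟩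
    · exact hTWO n c P hP
    · exact hSEC n I a d α k hd
  tfae_finish

end Pool.Agent.Helper15.TS
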