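import Pool.Agent.Helper15.TS.St

/-!
Full sections are context-free.
-/

namespace Pool.Agent.Helper15.TS

open Pool.Agent.Helper22.FL Pool.Agent.Helper22.CS

theorem stsec (hWTG : StWTG) (hREG : StREG) : StSEC := by
  classical
  intro n I a d α k hd
  let β : Fin n → ℤ := fun i => if i ∈ I then α i else 0
  have h1 := hWTG n β (d * k + ∑ i, β i * (a i : ℤ))
  have h2 := hREG n _ I a d hd h1
  have key : comLang (sec I a d α k) =
      {w | w ∈ ({w | ∑ i, β i * (w.count i : ℤ) = d * k + ∑ i, β i * (a i : ℤ)} :
        Language (Fin n)) ∧ (∀ i, i ∉ I → w.count i = a i) ∧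
          ∀ i ∈ I, a i ≤ w.count i ∧ d ∣ w.count i - a i} := by
    ext w
    constructor
    · rintro ⟨t, ht1, ht2, ht3⟩
      have hc : ∀ i, w.count i = a i + d * t i := fun i => congrFun ht3 i
      refine ⟨?_, fun i hi => ?_, fun i hi => ⟨?_, ?_⟩⟩
      · change ∑ i, β i * (w.count i : ℤ) = _
        have h3 : ∑ i, β i * (w.count i : ℤ) = ∑ i, (d * (α i * (t i : ℤ)) + β i * (a i : ℤ)) := by
          refine Finset.sum_congr rfl fun i _ => ?_
          rw [hc i]
          by_cases hi : i ∈ I
          · simp only [β, hi, if_true]
            push_cast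
            ring
          · simp only [β, hi, if_false, ht1 i hi]
            push_cast
            ring
        rw [h3, Finset.sum_add_distrib, ← Finset.mul_sum, ht2]
      · rw [hc i, ht1 i hi]
        simp
      · rw [hc i]
        exact Nat.le_add_right _ _
      · rw [hc i, Nat.add_sub_cancel_left]
        exact Dvd.intro _ rfl
    · rintro ⟨h3, h4, h5⟩
      change ∑ i, β i * (w.count i : ℤ) = _ at h3
      refine ⟨fun i => if i ∈ I then (w.count i - a i) / d else 0, fun i hi => by simp [hi],
        ?_, ?_⟩
      · have h6 : (d : ℤ) * ∑ i, α i * ((if i ∈ I then (w.count i - a i) / d else 0 : ℕ) : ℤ) =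
            ∑ i, β i * (w.count i : ℤ) - ∑ i, β i * (a i : ℤ) := by
          rw [Finset.mul_sum, ← Finset.sum_sub_distrib]
          refine Finset.sum_congr rfl fun i _ => ?_
          by_cases hi : i ∈ I
          · obtain ⟨h7, h8⟩ := h5 i hi
            obtain ⟨m, hm⟩ := h8
            have h9 : w.count i = a i + d * m := by omega
            simp only [β, hi, if_true]
            rw [hm, Nat.mul_div_cancel_left _ (by omega), h9]
            push_cast
            ring
          · simp [β, hi]
        rw [h3] at h6
        have hd' : (d : ℤ) ≠ 0 := by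
          have : d ≠ 0 := by omega
          exact_mod_cast this
        have h7 : (d : ℤ) * ∑ i, α i * ((if i ∈ I then (w.count i - a i) / d else 0 : ℕ) : ℤ) =
            d * k := by
          rw [h6]; ring
        exact mul_left_cancel₀ hd' h7
      · funext i
        change w.count i = a i + d * _
        by_cases hi : i ∈ I
        · obtain ⟨h7, h8⟩ := h5 i hi
          simp only [hi, if_true]
          rw [Nat.mul_div_cancel' h8]
          omega
        · simp only [hi, if_false]
          rw [h4 i hi]
          simp
  rw [key]
  exact h2

end Pool.Agent.Helper15.TS
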