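import Pool.Agent.Helper15.TS.St
import Pool.Agent.Helper22.FL.Pattern

/-!
Slices of a context-free commutative language.
-/

namespace Pool.Agent.Helper15.TS

open Pool.Agent.Helper22.FL Pool.Agent.Helper22.CS

theorem flatMap_replicate' {A T : Type} (h : A → List T) (k : ℕ) (a : A) :
    (List.replicate k a).flatMap h = (List.replicate k (h a)).flatten := by
  induction k with
  | zero => rfl
  | succ k ih => rw [List.replicate_succ, List.replicate_succ, List.flatMap_cons,
      List.flatten_cons, ih]

theorem blocks3 {k : Fin 3 → ℕ} :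
    (List.ofFn fun i : Fin 3 => List.replicate (k i) (id i)).flatten =
      List.replicate (k 0) 0 ++ List.replicate (k 1) 1 ++ List.replicate (k 2) 2 := by
  simp [List.ofFn_succ]

theorem stsli (hINV : StINV) (hHOM : StHOM) : StSLI := by
  intro n S hS z u v w hu hv hw
  let h : Fin 3 → List (Fin n) := ![u, v, w]
  have hh : ∀ a, h a ≠ [] := by
    intro a
    fin_cases a
    · exact hu
    · exact hv
    · exact hw
  have h1 := hINV (Fin 3) (Fin n) (comLang S) h z hh hS
  have h2 := isContextFree_inter h1 (patRuns (m := 2) (id : Fin 3 → Fin 3)) 0 (Fin.last 2)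
  have h3 := hHOM (Fin 3) (Fin n) _ h z h2
  have hf : ∀ k : Fin 3 → ℕ, z ++ (List.replicate (k 0) (0 : Fin 3) ++
      List.replicate (k 1) 1 ++ List.replicate (k 2) 2).flatMap h =
      z ++ (List.replicate (k 0) u).flatten ++ (List.replicate (k 1) v).flatten ++
        (List.replicate (k 2) w).flatten := by
    intro k
    rw [List.flatMap_append, List.flatMap_append, flatMap_replicate', flatMap_replicate',
      flatMap_replicate']
    simp [h, List.append_assoc]
  have key : comLang S ⊓ threeStar z u v w = {x | ∃ y ∈ ({y | y ∈ ({y | z ++ y.flatMap h ∈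
      comLang S} : Language (Fin 3)) ∧ (patRuns (m := 2) (id : Fin 3 → Fin 3)).rel 0 y
        (Fin.last 2)} : Language (Fin 3)), x = z ++ y.flatMap h} := by
    ext x
    constructor
    · rintro ⟨hx, k, hk⟩
      refine ⟨List.replicate (k 0) 0 ++ List.replicate (k 1) 1 ++ List.replicate (k 2) 2,
        ⟨?_, ?_⟩, ?_⟩
      · change z ++ _ ∈ comLang S
        rw [hf, ← hk]
        exact hx
      · exact patRuns_iff.2 ⟨k, blocks3.symm⟩
      · rw [hf, ← hk]
    · rintro ⟨y, ⟨hy, hp⟩, rfl⟩
      obtain ⟨k, hk⟩ := patRuns_iff.1 hp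
      refine ⟨hy, k, ?_⟩
      rw [hk, blocks3, hf]
  rw [key]
  exact h3

end Pool.Agent.Helper15.TS
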