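import Pool.Agent.Helper15.TS.St

/-!
Linear sets with periods in two letters are context-free.
-/

namespace Pool.Agent.Helper15.TS

open Pool.Agent.Helper22.FL Pool.Agent.Helper22.CS

theorem sttwo : StTWO := by
  classical
  intro n c P hP
  have h1 : lin c P = periodSet {c} P := by
    ext x
    constructor
    · rintro ⟨t, ht⟩
      exact ⟨c, Finset.mem_singleton_self c, t, ht⟩
    · rintro ⟨c', hc, t, ht⟩
      rw [Finset.mem_singleton] at hc
      subst hc
      exact ⟨t, ht⟩
  rw [h1]
  refine isContextFree_of_cuttable {c} P ?_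
  rintro F ⟨hF, _⟩ ⟨p, hp, hp0⟩
  by_cases hone : ∃ q ∈ F, ∃ a, letters q = {a}
  · exact Or.inl hone
  right
  have hsub : ∀ q ∈ F, letters q ⊆ lettersOf P := fun q hq =>
    Finset.subset_biUnion_of_mem letters (hF hq)
  have hne : (letters p).Nonempty := by
    rw [Finset.nonempty_iff_ne_empty]
    intro h
    apply hp0
    funext a
    by_contra ha
    have : a ∈ letters p := mem_letters.2 ha
    rw [h] at this
    exact absurd this (Finset.notMem_empty a)
  have hcard : 2 ≤ (letters p).card := by
    by_contra hlt
    have h2 : (letters p).card = 1 := by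
      have := hne.card_pos
      omega
    obtain ⟨a, ha⟩ := Finset.card_eq_one.1 h2
    exact hone ⟨p, hp, a, ha⟩
  have heq : letters p = lettersOf P := Finset.eq_of_subset_of_card_le (hsub p hp) (by omega)
  have h2 : (letters p).card = 2 := by
    rw [heq] at hcard ⊢
    omega
  obtain ⟨a, b, hab, hpab⟩ := Finset.card_eq_two.1 h2
  refine ⟨{a}, {b}, Finset.singleton_nonempty a, Finset.singleton_nonempty b, ?_, ?_, ?_⟩
  · rw [Finset.disjoint_singleton]
    exact hab
  · intro q hq
    have := hsub q hq
    rw [← heq, hpab] at this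
    rw [Finset.singleton_union]
    exact this
  · intro x hx y hy
    rw [Finset.mem_singleton] at hx hy
    subst hx
    subst hy
    exact ⟨p, hp, hpab⟩

end Pool.Agent.Helper15.TS
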