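import Pool.Agent.Helper15.TS.St
import Pool.Agent.Helper22.FL.Weight

/-!
Words whose letters can be given weights (from a bounded set depending on the letter)
with given total weight form a context-free language.
-/

namespace Pool.Agent.Helper15.TS

open Symbol Pool.Agent.Helper22.FL

variable {T : Type} {W : T → Set ℤ} {B : ℤ}

/-- the rules of the grammar -/
def RWB (B : ℤ) (W : T → Set ℤ) : Set (ContextFreeRule T ℤ) :=
  {⟨0, []⟩} ∪ Set.image2 (fun b c => ⟨b + c, [nonterminal b, nonterminal c]⟩)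
    (Set.Icc (-B) B) (Set.Icc (-B) B) ∪ ⋃ t, (fun a => ⟨a, [terminal t]⟩) '' W t

theorem RWB_finite [Finite T] (hW : ∀ t, W t ⊆ Set.Icc (-B) B) : (RWB B W).Finite := by
  refine ((Set.finite_singleton _).union ((Set.finite_Icc _ _).image2 _
    (Set.finite_Icc _ _))).union (Set.finite_iUnion fun t => ?_)
  exact ((Set.finite_Icc _ _).subset (hW t)).image _

theorem RWB_sound {d : ℤ} {w : List T} (h : w ∈ lang (RWB B W) d) : Wt W w d := by
  refine lang_sound (fun d => {w | Wt W w d}) ?_ d h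
  rintro r ((rfl | ⟨b, hb, c, hc, rfl⟩) | hr) w hw
  · rw [show w = [] from hw]
    exact Wt.nil
  · obtain ⟨u, v, rfl, hu, v', z, rfl, hv, hz⟩ := hw
    rw [show z = [] from hz, List.append_nil]
    exact Wt.append hu hv
  · obtain ⟨t, ht⟩ := Set.mem_iUnion.1 hr
    obtain ⟨a, ha, rfl⟩ := ht
    obtain ⟨z, rfl, hz⟩ := hw
    rw [show z = [] from hz]
    exact wt_single_iff.2 ha

theorem walk_upB (hB : 0 ≤ B) (hW : ∀ t, W t ⊆ Set.Icc (-B) B) (d : ℤ) (v : List T) :
    ∀ (u : List T) (a b : ℤ), Wt W u a → Wt W v b → a + b = d → a < d - B →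
    ∃ u' v' a' b', u ++ v = u' ++ v' ∧ u.length ≤ u'.length ∧ v' ≠ [] ∧ Wt W u' a' ∧
      Wt W v' b' ∧ a' + b' = d ∧ d - B ≤ a' ∧ a' ≤ d - 1 := by
  induction v with
  | nil =>
    intro u a b _ hb hab hlt
    rw [wt_nil_iff] at hb
    omega
  | cons t v ih =>
    intro u a b hu hb hab hlt
    obtain ⟨e, he, hv⟩ := wt_cons_iff.1 hb
    have he2 := hW t he
    rw [Set.mem_Icc] at he2
    have hu' : Wt W (u ++ [t]) (a + e) := hu.append (wt_single_iff.2 he)
    by_cases hc : d - B ≤ a + e
    · refine ⟨u ++ [t], v, a + e, b - e, by simp, by simp, ?_, hu', hv, by omega, hc, by omega⟩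
      rintro rfl
      rw [wt_nil_iff] at hv
      omega
    · obtain ⟨u', v', a', b', h1, h2, h3⟩ := ih (u ++ [t]) (a + e) (b - e) hu' hv (by omega)
        (by omega)
      refine ⟨u', v', a', b', ?_, ?_, h3⟩
      · rw [← h1]; simp
      · simp at h2
        omega

theorem walk_downB (hB : 0 ≤ B) (hW : ∀ t, W t ⊆ Set.Icc (-B) B) (d : ℤ) (v : List T) :
    ∀ (u : List T) (a b : ℤ), Wt W u a → Wt W v b → a + b = d → d + B < a →
    ∃ u' v' a' b', u ++ v = u' ++ v' ∧ u.length ≤ u'.length ∧ v' ≠ [] ∧ Wt W u' a' ∧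
      Wt W v' b' ∧ a' + b' = d ∧ d + 1 ≤ a' ∧ a' ≤ d + B := by
  induction v with
  | nil =>
    intro u a b _ hb hab hlt
    rw [wt_nil_iff] at hb
    omega
  | cons t v ih =>
    intro u a b hu hb hab hlt
    obtain ⟨e, he, hv⟩ := wt_cons_iff.1 hb
    have he2 := hW t he
    rw [Set.mem_Icc] at he2
    have hu' : Wt W (u ++ [t]) (a + e) := hu.append (wt_single_iff.2 he)
    by_cases hc : a + e ≤ d + B
    · refine ⟨u ++ [t], v, a + e, b - e, by simp, by simp, ?_, hu', hv, by omega, by omega, hc⟩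
      rintro rfl
      rw [wt_nil_iff] at hv
      omega
    · obtain ⟨u', v', a', b', h1, h2, h3⟩ := ih (u ++ [t]) (a + e) (b - e) hu' hv (by omega)
        (by omega)
      refine ⟨u', v', a', b', ?_, ?_, h3⟩
      · rw [← h1]; simp
      · simp at h2
        omega

theorem RWB_complete (hB : 0 ≤ B) (hW : ∀ t, W t ⊆ Set.Icc (-B) B) (n : ℕ) :
    ∀ (w : List T) (d : ℤ), w.length ≤ n → Wt W w d → -B ≤ d → d ≤ B → w ∈ lang (RWB B W) d := by
  induction n with
  | zero =>
    intro w d hn h _ _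
    have : w = [] := List.length_eq_zero_iff.1 (by omega)
    subst this
    rw [wt_nil_iff] at h
    subst h
    exact der_nt_iff.2 ⟨⟨0, []⟩, Or.inl (Or.inl rfl), rfl, .nil⟩
  | succ n ih =>
    intro w d hn h hd1 hd2
    rcases w with _ | ⟨t, w⟩
    · exact ih [] d (by simp) h hd1 hd2
    rcases w with _ | ⟨t', w⟩
    · rw [wt_single_iff] at h
      refine der_nt_iff.2 ⟨⟨d, [terminal t]⟩, Or.inr (Set.mem_iUnion.2 ⟨t, d, h, rfl⟩), rfl, ?_⟩
      exact .term t .nil
    -- a word of length at least two: split it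
    have hsplit : ∃ u' v' a' b', t :: t' :: w = u' ++ v' ∧ 1 ≤ u'.length ∧ v' ≠ [] ∧
        Wt W u' a' ∧ Wt W v' b' ∧ a' + b' = d ∧ -B ≤ a' ∧ a' ≤ B ∧ -B ≤ b' ∧ b' ≤ B := by
      obtain ⟨a, ha, h'⟩ := wt_cons_iff.1 h
      have ha2 := hW t ha
      rw [Set.mem_Icc] at ha2
      rcases lt_or_ge a (d - B) with hlt | hge
      · obtain ⟨u', v', a', b', h1, h2, h3, h4, h5, h6, h7, h8⟩ :=
          walk_upB hB hW d (t' :: w) [t] a (d - a) (wt_single_iff.2 ha) h' (by omega) hlt
        exact ⟨u', v', a', b', h1, h2, h3, h4, h5, h6, by omega, by omega, by omega, by omega⟩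
      rcases lt_or_ge (d + B) a with hlt | hge'
      · obtain ⟨u', v', a', b', h1, h2, h3, h4, h5, h6, h7, h8⟩ :=
          walk_downB hB hW d (t' :: w) [t] a (d - a) (wt_single_iff.2 ha) h' (by omega) hlt
        exact ⟨u', v', a', b', h1, h2, h3, h4, h5, h6, by omega, by omega, by omega, by omega⟩
      · exact ⟨[t], t' :: w, a, d - a, rfl, by simp, by simp, wt_single_iff.2 ha, h', by omega,
          by omega, by omega, by omega, by omega⟩
    obtain ⟨u', v', a', b', h1, h2, h3, h4, h5, h6, h7, h8, h9, h10⟩ := hsplit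
    have hlen : (t :: t' :: w).length = u'.length + v'.length := by
      rw [h1, List.length_append]
    have hv' : 1 ≤ v'.length := by
      rcases v' with _ | ⟨x, v'⟩
      · exact absurd rfl h3
      · simp
    have hu := ih u' a' (by omega) h4 h7 h8
    have hv := ih v' b' (by omega) h5 h9 h10
    rw [h1]
    refine der_nt_iff.2 ⟨⟨a' + b', [nonterminal a', nonterminal b']⟩,
      Or.inl (Or.inr ⟨a', ⟨h7, h8⟩, b', ⟨h9, h10⟩, rfl⟩), h6, ?_⟩
    exact Der.append (α := [nonterminal a']) hu hv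

/-- the words of possible total weight `d` form a context-free language -/
theorem isContextFree_wtB [Finite T] (hB : 0 ≤ B) (hW : ∀ t, W t ⊆ Set.Icc (-B) B) (d : ℤ)
    (hd1 : -B ≤ d) (hd2 : d ≤ B) : Language.IsContextFree ({w | Wt W w d} : Language T) := by
  have : ({w | Wt W w d} : Language T) = lang (RWB B W) d := by
    ext w
    exact ⟨fun h => RWB_complete hB hW w.length w d le_rfl h hd1 hd2, fun h => RWB_sound h⟩
  rw [this]
  exact isContextFree_lang (RWB_finite hW) d

/-- interval weights: from `l` to `α t` -/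
theorem wt_icc {n : ℕ} (β α : Fin n → ℤ) (hl : ∀ t, β t ≤ α t) (w : List (Fin n)) (d : ℤ) :
    Wt (fun t => Set.Icc (β t) (α t)) w d ↔
      ∑ i, β i * (w.count i : ℤ) ≤ d ∧ d ≤ ∑ i, α i * (w.count i : ℤ) := by
  induction w generalizing d with
  | nil => rw [wt_nil_iff]; simp; omega
  | cons t w ih =>
    rw [wt_cons_iff]
    have hc : ∀ γ : Fin n → ℤ, ∑ i, γ i * ((t :: w).count i : ℤ) =
        γ t + ∑ i, γ i * (w.count i : ℤ) := by
      intro γ
      have : ∀ i, γ i * ((t :: w).count i : ℤ) =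
          (if i = t then γ i else 0) + γ i * (w.count i : ℤ) := by
        intro i
        rw [List.count_cons]
        by_cases h : i = t
        · subst h; simp; ring
        · have h' : ¬ (t = i) := fun h2 => h h2.symm
          simp [h, h']
      rw [Finset.sum_congr rfl (fun i _ => this i), Finset.sum_add_distrib]
      simp
    rw [hc, hc]
    simp only [ih, Set.mem_Icc]
    constructor
    · rintro ⟨a, ⟨h1, h2⟩, h3, h4⟩
      omega
    · rintro ⟨h1, h2⟩
      have hl' := hl t
      have hs : ∑ i, β i * (w.count i : ℤ) ≤ ∑ i, α i * (w.count i : ℤ) :=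
        Finset.sum_le_sum fun i _ => mul_le_mul_of_nonneg_right (hl i) (by positivity)
      by_cases h0 : d - α t ≤ ∑ i, β i * (w.count i : ℤ)
      · exact ⟨d - ∑ i, β i * (w.count i : ℤ), by omega, by omega, by omega⟩
      · exact ⟨α t, by omega, by omega, by omega⟩

theorem stwtg : StWTG := by
  intro n α k
  set B : ℤ := ∑ i, |α i| + |k| with hBdef
  have h0 : 0 ≤ ∑ i, |α i| := Finset.sum_nonneg fun i _ => abs_nonneg _
  have hB : 0 ≤ B := add_nonneg h0 (abs_nonneg _)
  have hα : ∀ i, |α i| ≤ B := by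
    intro i
    have := Finset.single_le_sum (f := fun i => |α i|) (fun i _ => abs_nonneg _)
      (Finset.mem_univ i)
    have h2 := abs_nonneg k
    omega
  have hk : |k| ≤ B := by omega
  have key : ({w | ∑ i, α i * (w.count i : ℤ) = k} : Language (Fin n)) =
      {w | Wt (fun t => Set.Icc (α t) (α t)) w k} := by
    ext w
    change _ = _ ↔ Wt _ w k
    rw [wt_icc α α (fun _ => le_rfl)]
    omega
  rw [key]
  refine isContextFree_wtB hB (fun t => ?_) k (by rw [abs_le] at hk; omega)
    (by rw [abs_le] at hk; omega)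
  have := hα t
  rw [abs_le] at this
  intro x hx
  rw [Set.mem_Icc] at hx ⊢
  omega

end Pool.Agent.Helper15.TS
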