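import Pool.Agent.Helper15.TS.PINV
import Pool.Agent.Helper15.TS.PWTG
import Pool.Agent.Helper15.TS.PSLI
import Pool.Agent.Helper15.TS.PSEC
import Pool.Agent.Helper15.TS.PTWO
import Pool.Agent.Helper15.TS.PFIN
import Pool.Agent.Helper21.TS.PREP
import Pool.Agent.Helper21.TS.PCLS
import Pool.Agent.Helper74.TS.PHOM
import Pool.Agent.Helper74.TS.PFUL
import Pool.Agent.Helper16.TS.PPMP
import Pool.Agent.Helper51.TS.PLINE
import Pool.Agent.Helper28.TS.PGENA
import Pool.Agent.Helper37.TS.PGENB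
import Pool.Agent.Helper37.TS.PCOV
import Pool.Agent.Helper89.TS.PMOD
import Pool.Agent.Helper36.TS.PHYP
import Pool.Agent.Helper40.TS.PDEEP
import Pool.Agent.Helper47.TS.PDIR
import Pool.Agent.Helper94.TS.PCLA
import Pool.Agent.Helper8.TS.PCLB
import Pool.Agent.Helper6.TS.PCAB
import Pool.Agent.Helper66.TS.PREG

/-!
All modules together.
-/

namespace Pool.Agent.Helper15.TS

open Pool.Agent.Helper22.FL Pool.Agent.Helper22.CS

theorem allPMP : StPMP := Pool.Agent.Helper16.TS.stpmp stinv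

theorem allDIR : StDIR := Pool.Agent.Helper47.TS.stdir Pool.Agent.Helper51.TS.stline
  Pool.Agent.Helper28.TS.stgena Pool.Agent.Helper74.TS.stful

theorem allCLA : StCLA := Pool.Agent.Helper94.TS.stcla allPMP Pool.Agent.Helper51.TS.stline
  Pool.Agent.Helper28.TS.stgena Pool.Agent.Helper37.TS.stgenb Pool.Agent.Helper74.TS.stful

theorem allCLB : StCLB := Pool.Agent.Helper8.TS.stclb allPMP allDIR
  Pool.Agent.Helper40.TS.stdeep Pool.Agent.Helper21.TS.stcls

theorem allCAB : StCAB := Pool.Agent.Helper6.TS.stcab allCLA allCLB Pool.Agent.Helper36.TS.sthyp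

theorem allSEC : StSEC := stsec stwtg Pool.Agent.Helper66.TS.streg

theorem allSLI : StSLI := stsli stinv Pool.Agent.Helper74.TS.sthom

theorem all {n : ℕ} (L : Language (Fin n)) (hL : IsSemilinearSet (parikh '' L))
    (hslim : Slim (parikh '' L)) :
    List.TFAE [(comm L).IsContextFree,
      ∀ z u v w : List (Fin n), u ≠ [] → v ≠ [] → w ≠ [] →
        (comm L ⊓ threeStar z u v w).IsContextFree,
      ∃ 𝒟 : Set (Set (Fin n → ℕ)), 𝒟.Finite ∧ parikh '' L = ⋃₀ 𝒟 ∧
        ∀ D ∈ 𝒟, IsTwoLetter D ∨ IsSection D] :=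
  main Pool.Agent.Helper21.TS.strep Pool.Agent.Helper89.TS.stmod allCAB
    Pool.Agent.Helper37.TS.stcov sttwo allSEC allSLI L hL hslim

end Pool.Agent.Helper15.TS
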