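import Mathlib
import Pool.Agent.Helper22.CS.Defs
import Pool.Agent.Helper22.CS.Base

/-!
Definitions for the characterisation of context-free commutative closures in the case of a
slim set of Parikh vectors (MP_434a84_lc).
-/

namespace Pool.Agent.Helper15.TS

open Pool.Agent.Helper22.CS

variable {n : ℕ}

/-- the linear set `L(c, P)`: all vectors `c + ∑_{p ∈ P} t_p p` with natural numbers `t_p` -/
def lin (c : Fin n → ℕ) (P : Finset (Fin n → ℕ)) : Set (Fin n → ℕ) :=
  {x | ∃ t : (Fin n → ℕ) → ℕ, x = c + ∑ p ∈ P, t p • p}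

/-- the letters occurring in the vectors of `P` -/
def lettersOf (P : Finset (Fin n → ℕ)) : Finset (Fin n) := P.biUnion letters

/-- a vector of natural numbers, as a rational vector -/
def toQ (x : Fin n → ℕ) : Fin n → ℚ := fun i => (x i : ℚ)

/-- `S` is slim: no linear set `L(c, P)` contained in `S`, with at least three periods which are
linearly independent, has as many periods as letters -/
def Slim (S : Set (Fin n → ℕ)) : Prop :=
  ∀ (c : Fin n → ℕ) (P : Finset (Fin n → ℕ)), lin c P ⊆ S →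
    LinearIndepOn ℚ toQ (P : Set (Fin n → ℕ)) → 3 ≤ P.card → P.card < (lettersOf P).card

/-- the full section: all vectors `a + d t`, where `t` is a vector of natural numbers supported
in `I` with `∑ α_i t_i = k` -/
def sec (I : Finset (Fin n)) (a : Fin n → ℕ) (d : ℕ) (α : Fin n → ℤ) (k : ℤ) :
    Set (Fin n → ℕ) :=
  {x | ∃ t : Fin n → ℕ, (∀ i, i ∉ I → t i = 0) ∧ ∑ i, α i * (t i : ℤ) = k ∧ x = a + d • t}

/-- linear sets with periods in at most two letters -/
def IsTwoLetter (D : Set (Fin n → ℕ)) : Prop :=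
  ∃ (c : Fin n → ℕ) (P : Finset (Fin n → ℕ)), (lettersOf P).card ≤ 2 ∧ D = lin c P

/-- full sections -/
def IsSection (D : Set (Fin n → ℕ)) : Prop :=
  ∃ (I : Finset (Fin n)) (a : Fin n → ℕ) (d : ℕ) (α : Fin n → ℤ) (k : ℤ),
    1 ≤ d ∧ D = sec I a d α k

/-- the language `z u^* v^* w^*` -/
def threeStar (z u v w : List (Fin n)) : Language (Fin n) :=
  {x | ∃ k : Fin 3 → ℕ, x = z ++ (List.replicate (k 0) u).flatten ++
    (List.replicate (k 1) v).flatten ++ (List.replicate (k 2) w).flatten}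

/-- all slices of the commutative language of `S` by languages `z u^* v^* w^*` are
context-free -/
def TestCF (S : Set (Fin n → ℕ)) : Prop :=
  ∀ z u v w : List (Fin n), u ≠ [] → v ≠ [] → w ≠ [] →
    (comLang S ⊓ threeStar z u v w).IsContextFree

/-! Auxiliary notions (not used in the statement of the theorem). -/

/-- `S` is the union of the linear sets `L(r.1, r.2)`, `r ∈ R`, with independent periods -/
def IsRep (R : Finset ((Fin n → ℕ) × Finset (Fin n → ℕ))) (S : Set (Fin n → ℕ)) : Prop :=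
  (∀ r ∈ R, LinearIndepOn ℚ toQ (r.2 : Set (Fin n → ℕ))) ∧
    ∀ x, x ∈ S ↔ ∃ r ∈ R, x ∈ lin r.1 r.2

/-- the vectors of `P` with all letters in `I` -/
def restr (P : Finset (Fin n → ℕ)) (I : Finset (Fin n)) : Finset (Fin n → ℕ) :=
  P.filter fun p => letters p ⊆ I

/-- rational span of a finite set of vectors -/
def spQ (P : Finset (Fin n → ℕ)) : Submodule ℚ (Fin n → ℚ) :=
  Submodule.span ℚ (toQ '' (P : Set (Fin n → ℕ)))

/-- the span of `P` is the hyperplane `α x = 0` of the space of vectors supported in `I` -/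
def IsHyp (I : Finset (Fin n)) (P : Finset (Fin n → ℕ)) (α : Fin n → ℤ) : Prop :=
  (∀ p ∈ P, letters p ⊆ I) ∧ lettersOf P = I ∧ (∃ i ∈ I, α i ≠ 0) ∧
    ∀ x : Fin n → ℚ, (∀ i, i ∉ I → x i = 0) → (x ∈ spQ P ↔ ∑ i, (α i : ℚ) * x i = 0)

/-- `d` is a modulus for the finite set `P` -/
def IsMod (P : Finset (Fin n → ℕ)) (d : ℕ) : Prop :=
  ∀ z : Fin n → ℤ, (fun i => (z i : ℚ)) ∈ spQ P →
    ∃ m : (Fin n → ℕ) → ℤ, ∀ i, (d : ℤ) * z i = ∑ p ∈ P, m p * (p i : ℤ)

end Pool.Agent.Helper15.TS
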