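import Pool.Agent.Helper12.TS.St
import Pool.Agent.Helper86.NK.M_PTR
import Pool.Agent.Helper36.NK.M_KCA
import Pool.Agent.Helper51.AJ.Basic

/-!
# Project TS, module EXQ: an excluded minor is minimal non-apex
-/

set_option autoImplicit false

namespace Pool.Agent.Helper15.TS

open Pool.Agent.Helper12.TS
open Pool.Agent.Helper51.AJ (IsMinor Planar Apex ExMinor Con Tch con_singleton)
open Pool.Agent.Helper12.NK (rst Kc add)

private lemma planar_emb {α β : Type} (K : SimpleGraph β) (H : SimpleGraph α) (g : β → α)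
    (hg : Function.Injective g)
    (h : ∀ a a', H.Adj a a' → ∃ b b', g b = a ∧ g b' = a' ∧ K.Adj b b') (hK : Planar K) :
    Planar H := by
  refine Pool.Agent.Helper86.NK.hPTR α β H K (fun a => g ⁻¹' {a}) ?_ ?_ ?_ hK
  · intro a a' haa
    obtain ⟨b, b', hb, hb', hK⟩ := h a a' haa
    have e : g ⁻¹' {a} = {b} := by
      ext z
      simp only [Set.mem_preimage, Set.mem_singleton_iff]
      constructor
      · intro hz
        exact hg (hz.trans hb.symm)
      · rintro rfl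
        exact hb
    simp only [e]
    exact con_singleton K b
  · intro a a' b b' hab _ _
    rw [Set.disjoint_left]
    intro z hz hz'
    exact hab ((Set.mem_singleton_iff.1 hz).symm.trans (Set.mem_singleton_iff.1 hz'))
  · intro a a' haa
    obtain ⟨b, b', hb, hb', hK⟩ := h a a' haa
    exact ⟨b, hb, b', hb', hK⟩

private lemma quo_edges {V : Type} [Finite V] (G G₀ : SimpleGraph V) (D : Set V) (ρ : V → V)
    (hle : G₀ ≤ G) (x0 y0 : V) (h0 : G.Adj x0 y0)
    (hn : ¬ (G₀.Adj x0 y0 ∧ x0 ∈ D ∧ y0 ∈ D ∧ ρ x0 ≠ ρ y0)) :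
    (quo G₀ D ρ).edgeSet.ncard < G.edgeSet.ncard := by
  have hfin : ∀ T : Set (Sym2 V), T.Finite := fun T => Set.toFinite T
  have hsub : (quo G₀ D ρ).edgeSet ⊆ Sym2.map ρ '' (G.edgeSet \ {s(x0, y0)}) := by
    intro e
    induction e using Sym2.ind with
    | _ a b =>
      intro he
      rw [SimpleGraph.mem_edgeSet] at he
      obtain ⟨hab, x, hx, y, hy, rfl, rfl, hxy⟩ := he
      refine ⟨s(x, y), ⟨hle hxy, ?_⟩, by simp⟩
      intro heq
      rw [Set.mem_singleton_iff, Sym2.eq_iff] at heq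
      rcases heq with ⟨rfl, rfl⟩ | ⟨rfl, rfl⟩
      · exact hn ⟨hxy, hx, hy, hab⟩
      · exact hn ⟨hxy.symm, hy, hx, hab.symm⟩
  have h1 := Set.ncard_le_ncard hsub (hfin _)
  have h2 := Set.ncard_image_le (f := Sym2.map ρ) (hfin (G.edgeSet \ {s(x0, y0)}))
  have h3 : s(x0, y0) ∈ G.edgeSet := h0
  have h4 := Set.ncard_diff_singleton_lt_of_mem h3 (hfin _)
  exact (h1.trans h2).trans_lt h4

/-- EXQ -/
theorem hEXQ : StEXQ := by
  intro V _ G hG
  have hK7 : ∀ U : Set V, Planar (G.induce U) ↔ Planar (rst G U) := fun U =>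
    (Pool.Agent.Helper36.NK.hKCA Pool.Agent.Helper86.NK.hPTR V G U).2.2.2.2.2.2.1
  refine ⟨fun v hv => hG.1 (Or.inr ⟨v, (hK7 _).2 hv⟩), ?_⟩
  rintro G₀ D ρ hle hcon ⟨x0, y0, h0, hn⟩
  have hE := quo_edges G G₀ D ρ hle x0 y0 h0 hn
  set S : Set V := ρ '' D with hS
  set H : SimpleGraph S := (quo G₀ D ρ).induce S with hH
  have hmin : IsMinor H G := by
    refine ⟨fun a => {z | z ∈ D ∧ ρ z = a.1}, ?_, ?_, ?_⟩
    · rintro ⟨a, x, hx, rfl⟩
      exact hcon x hx
    · intro a b hab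
      rw [Set.disjoint_left]
      rintro z ⟨_, hz⟩ ⟨_, hz'⟩
      exact hab (Subtype.ext (hz.symm.trans hz'))
    · intro a b hab
      obtain ⟨-, x, hx, y, hy, h1, h2, h3⟩ := hab
      exact ⟨x, ⟨hx, h1⟩, y, ⟨hy, h2⟩, hle h3⟩
  have hiso : ¬ Nonempty (H ≃g G) := by
    rintro ⟨e⟩
    let f : V → V := fun v => (e.symm v).1
    have hf : Function.Injective f := fun a b hab => e.symm.injective (Subtype.ext hab)
    have hsub : Sym2.map f '' G.edgeSet ⊆ (quo G₀ D ρ).edgeSet := by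
      rintro _ ⟨s, hs, rfl⟩
      induction s using Sym2.ind with
      | _ a b =>
        rw [SimpleGraph.mem_edgeSet] at hs
        have h1 : H.Adj (e.symm a) (e.symm b) := e.symm.map_rel_iff.2 hs
        exact h1
    have h1 := Set.ncard_le_ncard hsub (Set.toFinite _)
    rw [Set.ncard_image_of_injective _ (Sym2.map.injective hf)] at h1
    omega
  have hmem : ∀ a b, (quo G₀ D ρ).Adj a b → a ∈ S ∧ b ∈ S := by
    rintro a b ⟨-, x, hx, y, hy, h1, h2, -⟩
    exact ⟨⟨x, hx, h1⟩, ⟨y, hy, h2⟩⟩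
  rcases hG.2 S H hmin hiso with hP | ⟨w, hP⟩
  · refine ⟨x0, planar_emb H _ Subtype.val Subtype.val_injective ?_ hP⟩
    rintro a b ⟨hab, -, -⟩
    obtain ⟨ha, hb⟩ := hmem a b hab
    exact ⟨⟨a, ha⟩, ⟨b, hb⟩, rfl, rfl, hab⟩
  · refine ⟨w.1, planar_emb (H.induce {w}ᶜ) _ (fun s => s.1.1)
      (Subtype.val_injective.comp Subtype.val_injective) ?_ hP⟩
    rintro a b ⟨hab, ha', hb'⟩
    obtain ⟨ha, hb⟩ := hmem a b hab
    refine ⟨⟨⟨a, ha⟩, ?_⟩, ⟨⟨b, hb⟩, ?_⟩, rfl, rfl, hab⟩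
    · intro h
      exact ha' (congrArg Subtype.val h)
    · intro h
      exact hb' (congrArg Subtype.val h)

end Pool.Agent.Helper15.TS
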