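import Pool.Agent.Helper12.TS.St
import Pool.Agent.Helper86.NK.M_PTR
import Pool.Agent.Helper36.NK.M_KCA
import Pool.Agent.Helper51.AJ.Basic

/-!
# Project TS, module M3D: three components with private indices
-/

set_option autoImplicit false

namespace Pool.Agent.Helper15.TS

open Pool.Agent.Helper12.TS
open Pool.Agent.Helper51.AJ (IsMinor Planar Apex ExMinor Con Tch con_singleton)
open Pool.Agent.Helper12.NK (rst Kc add)

/-- the graph without the edges between `A` and `t` -/
private def cut {V : Type} (G : SimpleGraph V) (A : Set V) (t : V) : SimpleGraph V where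
  Adj a b := G.Adj a b ∧ ¬ (a ∈ A ∧ b = t) ∧ ¬ (b ∈ A ∧ a = t)
  symm := ⟨fun _ _ h => ⟨h.1.symm, h.2.2, h.2.1⟩⟩
  loopless := ⟨fun _ h => G.ne_of_adj h.1 rfl⟩

private lemma other : ∀ i : Fin 3, ∃ j : Fin 3, j ≠ i ∧ j ≠ 2 := by
  decide

private lemma quo_id {V : Type} (G : SimpleGraph V) : quo G Set.univ id = G := by
  ext a b
  constructor
  · rintro ⟨-, x, -, y, -, rfl, rfl, h⟩
    exact h
  · intro h
    exact ⟨G.ne_of_adj h, a, trivial, b, trivial, rfl, rfl, h⟩

/-- M3D -/
theorem hM3D : StCMP → StLNK → StM3D := by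
  intro hCMP hLNK V _ G S C s hM hK hS hC hne hs hinj hSt
  obtain ⟨-, hdis, -, htch, -, -, -⟩ := hCMP V G S
  have hdis' : ∀ i j, i ≠ j → Disjoint (C i) (C j) := fun i j hij =>
    hdis _ _ (hC i) (hC j) (hne i j hij)
  have hCS : ∀ i x, x ∈ C i → x ∉ S := fun i x hx hxS =>
    Set.disjoint_left.1 (hC i).1 hx hxS
  set G₀ : SimpleGraph V := cut G (C 2) (s 2) with hG₀
  have hle : G₀ ≤ G := fun a b h => h.1
  obtain ⟨v, hv⟩ : ∃ v, Planar (rst (quo G₀ Set.univ id) {v}ᶜ) := by
    refine hM.2 G₀ Set.univ id hle ?_ ?_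
    · intro x _
      have e : {z | z ∈ (Set.univ : Set V) ∧ id z = id x} = {x} := by
        ext z
        simp
      rw [e]
      exact con_singleton G x
    · obtain ⟨x, hx, y, hy, hxy⟩ := htch hK hS (C 2) (hC 2) (s 2) (hs 2)
      rw [Set.mem_singleton_iff] at hx
      subst hx
      exact ⟨_, y, hxy, fun h => h.1.2.2 ⟨hy, rfl⟩⟩
  rw [quo_id] at hv
  set K : SimpleGraph V := rst G₀ {v}ᶜ with hKdef
  have hKadj : ∀ a b, K.Adj a b ↔ (G₀.Adj a b ∧ a ≠ v ∧ b ≠ v) := fun a b => Iff.rfl
  have step : ∀ i j : Fin 3, j ≠ i → j ≠ 2 → v ∉ C j → v ∉ C i → v ∉ S \ {s i} → False := by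
    intro i j hji hj2 hvj hvi hvS
    have hc2 : (S \ {s i}).ncard = 2 := by
      have := Set.ncard_diff_singleton_of_mem (hs i)
      omega
    obtain ⟨a, b, hab, hSab⟩ := Set.ncard_eq_two.1 hc2
    have haS : a ∈ S \ {s i} := by rw [hSab]; simp
    have hbS : b ∈ S \ {s i} := by rw [hSab]; simp
    have hne2 : ∀ x, x ∈ C j → x ∉ C 2 := fun x hx hx2 =>
      Set.disjoint_left.1 (hdis' j 2 hj2) hx hx2
    have h1 : rst G (C i ∪ {a, b}) ≤ K := by
      have aux : ∀ x y, x ∈ C i ∪ {a, b} → y ∈ C i ∪ {a, b} → ¬ (x ∈ C 2 ∧ y = s 2) := by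
        rintro x y hx hy ⟨hx2, rfl⟩
        rw [← hSab] at hx hy
        rcases hx with hx | hx
        · by_cases hi2 : i = 2
          · subst hi2
            rcases hy with hy | hy
            · exact hCS _ _ hy (hs 2)
            · exact hy.2 rfl
          · exact Set.disjoint_left.1 (hdis' i 2 hi2) hx hx2
        · exact hCS 2 x hx2 hx.1
      have hv' : v ∉ C i ∪ {a, b} := by
        rw [← hSab]
        rintro (h | h)
        · exact hvi h
        · exact hvS h
      intro x y hxy
      obtain ⟨hxy, hx, hy⟩ := hxy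
      refine (hKadj x y).2 ⟨⟨hxy, aux x y hx hy, aux y x hy hx⟩, ?_, ?_⟩
      · rintro rfl
        exact hv' hx
      · rintro rfl
        exact hv' hy
    have h2 : Disjoint (C j) (C i ∪ {a, b}) := by
      rw [← hSab, Set.disjoint_left]
      rintro x hx (h | h)
      · exact Set.disjoint_left.1 (hdis' j i hji) hx h
      · exact hCS j x hx h.1
    have h3 : Con K (C j) := by
      have h5 := (Pool.Agent.Helper36.NK.hKCA Pool.Agent.Helper86.NK.hPTR V G
        Set.univ).2.2.2.2.1 K (C j) (by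
          intro x hx y hy
          constructor
          · intro h
            refine (hKadj x y).2 ⟨⟨h, fun h => hne2 x hx h.1, fun h => hne2 y hy h.1⟩, ?_, ?_⟩
            · rintro rfl
              exact hvj hx
            · rintro rfl
              exact hvj hy
          · intro h
            exact h.1.1)
      exact h5.1 (hC j).2.1
    have h4 : ∀ t ∈ S \ {s i}, Tch K {t} (C j) := by
      intro t ht
      obtain ⟨x, hx, y, hy, hxy⟩ := htch hK hS (C j) (hC j) t ht.1
      rw [Set.mem_singleton_iff] at hx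
      subst hx
      refine ⟨x, rfl, y, hy, (hKadj x y).2 ⟨⟨hxy, ?_, ?_⟩, ?_, ?_⟩⟩
      · rintro ⟨h, -⟩
        exact hCS 2 x h ht.1
      · rintro ⟨h, -⟩
        exact hne2 y hy h
      · rintro rfl
        exact hvS ht
      · rintro rfl
        exact hvj hy
    have h5 : Lk K (C j) a b := Or.inr ⟨C j, subset_rfl, h3, h4 a haS, h4 b hbS⟩
    have h6 := hLNK V G K (C i) (C j) a b h1 h2 h5 hv
    rw [← hSab] at h6
    exact hSt i h6
  by_cases hvS : v ∈ S
  · have hr : Set.range s = S := by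
      refine Set.eq_of_subset_of_ncard_le (by rintro _ ⟨i, rfl⟩; exact hs i) ?_ (Set.toFinite _)
      rw [hS, ← Set.image_univ, Set.ncard_image_of_injective _ hinj, Set.ncard_univ]
      simp
    rw [← hr] at hvS
    obtain ⟨i, rfl⟩ := hvS
    have hn : ∀ k, s i ∉ C k := fun k h => hCS k _ h (hs i)
    have hn' : s i ∉ S \ {s i} := fun h => h.2 rfl
    obtain ⟨j, hj, hj2⟩ := other i
    exact step i j hj hj2 (hn j) (hn i) hn'
  · have hn' : ∀ i, v ∉ S \ {s i} := fun i h => hvS h.1
    by_cases hv2 : v ∈ C 2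
    · exact step 0 1 (by decide) (by decide) (fun h => Set.disjoint_left.1
        (hdis' 1 2 (by decide)) h hv2) (fun h => Set.disjoint_left.1
        (hdis' 0 2 (by decide)) h hv2) (hn' 0)
    · by_cases hv0 : v ∈ C 0
      · exact step 2 1 (by decide) (by decide) (fun h => Set.disjoint_left.1
          (hdis' 1 0 (by decide)) h hv0) hv2 (hn' 2)
      · exact step 2 0 (by decide) (by decide) hv0 hv2 (hn' 2)

end Pool.Agent.Helper15.TS
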