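import Pool.Agent.Helper15.TS.St

/-!
Closure of context-free languages under nonerasing inverse homomorphisms.
-/

namespace Pool.Agent.Helper15.TS

open Symbol Pool.Agent.Helper22.FL

variable {A T N : Type}

/-- reading `v` with the buffer `s`, fetching the letters of `w`, leaving `s'` -/
inductive Rd (h : A → List T) : List T → List T → List A → List T → Prop
  | nil (s : List T) : Rd h s [] [] s
  | pop (t : T) {s v s' : List T} {w : List A} : Rd h s v w s' → Rd h (t :: s) (t :: v) w s'
  | fetch (t : T) {a : A} {s v s' : List T} {w : List A} : h a = t :: s → Rd h s v w s' →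
      Rd h [] (t :: v) (a :: w) s'

variable {h : A → List T}

theorem Rd.append {s v1 m v2 s' : List T} {w1 w2 : List A} (h1 : Rd h s v1 w1 m)
    (h2 : Rd h m v2 w2 s') : Rd h s (v1 ++ v2) (w1 ++ w2) s' := by
  induction h1 with
  | nil s => simpa using h2
  | pop t _ ih => exact .pop t (ih h2)
  | fetch t ha _ ih => exact .fetch t ha (ih h2)

theorem Rd.split {s v1 v2 s' : List T} {w : List A} (hr : Rd h s (v1 ++ v2) w s') :
    ∃ m w1 w2, w = w1 ++ w2 ∧ Rd h s v1 w1 m ∧ Rd h m v2 w2 s' := by
  induction v1 generalizing s w with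
  | nil => exact ⟨s, [], w, rfl, .nil s, hr⟩
  | cons t v1 ih =>
    rw [List.cons_append] at hr
    cases hr with
    | pop _ h' =>
      obtain ⟨m, w1, w2, rfl, h1, h2⟩ := ih h'
      exact ⟨m, w1, w2, rfl, .pop t h1, h2⟩
    | fetch _ ha h' =>
      obtain ⟨m, w1, w2, rfl, h1, h2⟩ := ih h'
      exact ⟨m, _ :: w1, w2, rfl, .fetch t ha h1, h2⟩

theorem Rd.eq {s v s' : List T} {w : List A} (hr : Rd h s v w s') :
    s ++ w.flatMap h = v ++ s' := by
  induction hr with
  | nil s => simp
  | pop t _ ih => simp [ih]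
  | fetch t ha _ ih => simp [ha, ih]

theorem rd_of_eq (hh : ∀ a, h a ≠ []) {s v : List T} {w : List A}
    (he : s ++ w.flatMap h = v) : Rd h s v w [] := by
  induction v generalizing s w with
  | nil =>
    rw [List.append_eq_nil_iff] at he
    obtain ⟨rfl, he⟩ := he
    cases w with
    | nil => exact .nil []
    | cons a w =>
      rw [List.flatMap_cons, List.append_eq_nil_iff] at he
      exact absurd he.1 (hh a)
  | cons t v ih =>
    cases s with
    | cons t' s =>
      rw [List.cons_append] at he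
      obtain ⟨rfl, he2⟩ := List.cons.inj he
      exact .pop _ (ih he2)
    | nil =>
      cases w with
      | nil => simp at he
      | cons a w =>
        rw [List.nil_append, List.flatMap_cons] at he
        cases hs : h a with
        | nil => exact absurd hs (hh a)
        | cons t' s1 =>
          rw [hs, List.cons_append] at he
          obtain ⟨rfl, he2⟩ := List.cons.inj he
          exact .fetch _ hs (ih he2)

/-- the buffers -/
def Buf (h : A → List T) (z : List T) : Set (List T) :=
  {s | s ∈ z.tails ∨ ∃ a, s ∈ (h a).tails}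

theorem buf_finite [Finite A] (h : A → List T) (z : List T) : (Buf h z).Finite := by
  have : Buf h z = {s | s ∈ z.tails} ∪ ⋃ a, {s | s ∈ (h a).tails} := by
    ext s
    simp [Buf]
  rw [this]
  exact (List.finite_toSet _).union (Set.finite_iUnion fun a => List.finite_toSet _)

theorem buf_tail {z : List T} {t : T} {s : List T} (hs : t :: s ∈ Buf h z) : s ∈ Buf h z := by
  rcases hs with hs | ⟨a, hs⟩
  · left
    rw [List.mem_tails] at hs ⊢
    exact (List.suffix_cons t s).trans hs
  · right
    refine ⟨a, ?_⟩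
    rw [List.mem_tails] at hs ⊢
    exact (List.suffix_cons t s).trans hs

theorem buf_fetch {z : List T} {a : A} {t : T} {s : List T} (hs : h a = t :: s) :
    s ∈ Buf h z := by
  refine Or.inr ⟨a, ?_⟩
  rw [hs, List.mem_tails]
  exact List.suffix_cons t s

theorem Rd.buf {z : List T} {s v s' : List T} {w : List A} (hr : Rd h s v w s')
    (hs : s ∈ Buf h z) : s' ∈ Buf h z := by
  induction hr with
  | nil s => exact hs
  | pop t _ ih => exact ih (buf_tail hs)
  | fetch t ha _ ih => exact ih (buf_fetch ha)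

/-- annotations -/
def An (h : A → List T) (F : Set (List T)) : List T → List (Symbol T N) →
    List (Symbol A (List T × N × List T)) → List T → Prop
  | p, [], γ, q => γ = [] ∧ p = q
  | p, terminal t :: α, γ, q => (∃ p', p = t :: p' ∧ An h F p' α γ q) ∨
      ∃ a p' γ', p = [] ∧ h a = t :: p' ∧ γ = terminal a :: γ' ∧ An h F p' α γ' q
  | p, nonterminal X :: α, γ, q => ∃ m ∈ F, ∃ γ', γ = nonterminal (p, X, m) :: γ' ∧
      An h F m α γ' q

theorem an_finite [Finite A] (h : A → List T) {F : Set (List T)} (hF : F.Finite)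
    (α : List (Symbol T N)) (p q : List T) : {γ | An h F p α γ q}.Finite := by
  induction α generalizing p with
  | nil => exact (Set.finite_singleton []).subset fun γ h => h.1
  | cons a α ih =>
    cases a with
    | terminal t =>
      have h1 : {γ | ∃ p', p = t :: p' ∧ An h F p' α γ q}.Finite := by
        refine (ih p.tail).subset ?_
        rintro γ ⟨p', rfl, hγ⟩
        exact hγ
      have h2 : (⋃ a : A, (fun γ => terminal a :: γ) '' {γ | An h F (h a).tail α γ q}).Finite :=
        Set.finite_iUnion fun a => (ih _).image _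
      refine (h1.union h2).subset ?_
      rintro γ (hγ | ⟨a, p', γ', _, ha, rfl, hγ⟩)
      · exact Or.inl hγ
      · refine Or.inr (Set.mem_iUnion.2 ⟨a, γ', ?_, rfl⟩)
        rw [Set.mem_ofPred_eq, ha]
        exact hγ
    | nonterminal X =>
      refine (hF.biUnion fun m _ => (ih m).image
        (fun γ => nonterminal (p, X, m) :: γ)).subset ?_
      rintro γ ⟨m, hm, γ', rfl, hγ⟩
      simp only [Set.mem_iUnion]
      exact ⟨m, hm, γ', hγ, rfl⟩

/-- the annotated rules -/
def anRules (h : A → List T) (F : Set (List T)) (R : Set (ContextFreeRule T N)) :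
    Set (ContextFreeRule A (List T × N × List T)) :=
  {r' | ∃ r ∈ R, ∃ p ∈ F, ∃ q ∈ F, r'.input = (p, r.input, q) ∧ An h F p r.output r'.output q}

theorem anRules_finite [Finite A] (h : A → List T) {F : Set (List T)} (hF : F.Finite)
    {R : Set (ContextFreeRule T N)} (hR : R.Finite) : (anRules h F R).Finite := by
  have h1 : (⋃ r ∈ R, ⋃ p ∈ F, ⋃ q ∈ F,
      (fun γ => (⟨(p, r.input, q), γ⟩ : ContextFreeRule A (List T × N × List T))) ''
        {γ | An h F p r.output γ q}).Finite :=
    hR.biUnion fun r _ => hF.biUnion fun p _ => hF.biUnion fun q _ =>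
      (an_finite h hF r.output p q).image _
  refine h1.subset ?_
  rintro ⟨i, o⟩ ⟨r, hr, p, hp, q, hq, rfl, h2⟩
  simp only [Set.mem_iUnion]
  exact ⟨r, hr, p, hp, q, hq, o, h2, rfl⟩

theorem an_sound (h : A → List T) (F : Set (List T)) {R : Set (ContextFreeRule T N)}
    {α : List (Symbol T N)} {γ : List (Symbol A (List T × N × List T))} {p q : List T}
    {w : List A} (hA : An h F p α γ q)
    (hw : Interp (fun X => {w | ∃ v, Der R [nonterminal X.2.1] v ∧ Rd h X.1 v w X.2.2}) γ w) :
    ∃ v, Der R α v ∧ Rd h p v w q := by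
  induction α generalizing p γ w with
  | nil =>
    obtain ⟨rfl, rfl⟩ := hA
    rw [show w = [] from hw]
    exact ⟨[], .nil, .nil p⟩
  | cons a α ih =>
    cases a with
    | terminal t =>
      rcases hA with ⟨p', rfl, hA⟩ | ⟨a, p', γ', rfl, ha, rfl, hA⟩
      · obtain ⟨v, h1, h2⟩ := ih hA hw
        exact ⟨t :: v, .term t h1, .pop t h2⟩
      · obtain ⟨w', rfl, hw'⟩ := hw
        obtain ⟨v, h1, h2⟩ := ih hA hw'
        exact ⟨t :: v, .term t h1, .fetch t ha h2⟩
    | nonterminal X =>
      obtain ⟨m, hm, γ', rfl, hA'⟩ := hA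
      obtain ⟨u, v, rfl, ⟨v1, hv1, hu⟩, hv⟩ := hw
      obtain ⟨v2, h1, h2⟩ := ih hA' hv
      exact ⟨v1 ++ v2, Der.append (α := [nonterminal X]) hv1 h1, hu.append h2⟩

theorem an_complete (h : A → List T) {z : List T} {R : Set (ContextFreeRule T N)}
    {α : List (Symbol T N)} {v : List T} (hd : Der R α v) :
    ∀ (p q : List T) (w : List A), p ∈ Buf h z → Rd h p v w q →
      ∃ γ, An h (Buf h z) p α γ q ∧ Der (anRules h (Buf h z) R) γ w := by
  induction hd with
  | nil =>
    intro p q w _ hr
    cases hr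
    exact ⟨[], ⟨rfl, rfl⟩, .nil⟩
  | @term t α v _ ih =>
    intro p q w hp hr
    cases hr with
    | pop _ h' =>
      obtain ⟨γ, h3, h4⟩ := ih _ _ _ (buf_tail hp) h'
      exact ⟨γ, Or.inl ⟨_, rfl, h3⟩, h4⟩
    | fetch _ ha h' =>
      obtain ⟨γ, h3, h4⟩ := ih _ _ _ (buf_fetch ha) h'
      exact ⟨_, Or.inr ⟨_, _, _, rfl, ha, rfl, h3⟩, .term _ h4⟩
  | @nonterm r α u v hr _ _ ih1 ih2 =>
    intro p q w hp hrd
    obtain ⟨m, w1, w2, rfl, h1, h2⟩ := hrd.split
    have hm := h1.buf hp
    obtain ⟨γ1, h3, h4⟩ := ih1 p m w1 hp h1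
    obtain ⟨γ2, h5, h6⟩ := ih2 m q w2 hm h2
    refine ⟨nonterminal (p, r.input, m) :: γ2, ⟨m, hm, γ2, rfl, h5⟩, ?_⟩
    exact Der.nonterm (r := ⟨(p, r.input, m), γ1⟩) ⟨r, hr, p, hp, m, hm, rfl, h3⟩ h4 h6

theorem stinv : StINV := by
  intro A T _ L h z hh hL
  obtain ⟨N, R, X, hR, rfl⟩ := exists_lang hL
  have hz : z ∈ Buf h z := Or.inl (by simp)
  have h0 : ([] : List T) ∈ Buf h z := Or.inl (by simp)
  have key : ({w | z ++ w.flatMap h ∈ lang R X} : Language A) =
      lang (anRules h (Buf h z) R) (z, X, []) := by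
    ext w
    constructor
    · intro hw
      obtain ⟨r, hr, hrX, h3⟩ := der_nt_iff.1 (show Der R [nonterminal X] _ from hw)
      obtain ⟨γ, h4, h5⟩ := an_complete h (z := z) h3 z [] w hz (rd_of_eq hh rfl)
      exact der_nt_iff.2 ⟨⟨(z, X, []), γ⟩, ⟨r, hr, z, hz, [], h0, by rw [hrX], h4⟩, rfl, h5⟩
    · intro hw
      have := lang_sound (fun X => {w | ∃ v, Der R [nonterminal X.2.1] v ∧ Rd h X.1 v w X.2.2})
        ?_ (z, X, []) hw
      · obtain ⟨v, hv, hr⟩ := this
        have h1 := hr.eq
        simp only [List.append_nil] at h1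
        change Der R [nonterminal X] (z ++ w.flatMap h)
        rw [h1]
        exact hv
      · rintro ⟨i, o⟩ ⟨r, hr, p, hp, q, hq, rfl, hA⟩ w hw
        obtain ⟨v, h1, h2⟩ := an_sound h _ hA hw
        exact ⟨v, der_nt_iff.2 ⟨r, hr, rfl, h1⟩, h2⟩
  rw [key]
  exact isContextFree_lang (anRules_finite h (buf_finite h z) hR) _

end Pool.Agent.Helper15.TS
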