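import Pool.Agent.Helper15.TS.Defs
import Pool.Agent.Helper22.FL.Closure
import Pool.Agent.Helper22.CS.Final

/-!
PROJECT TS (MP_434a84_lc, Z49): statements with complete proofs.

THEOREM: let L be a language over n letters whose set S of Parikh vectors is semilinear
(for instance, L context-free) and slim (no linear set contained in S with at least three
periods, independent, has as many periods as letters; for instance dim S <= 2).  Then the following
are equivalent: (i) comm(L) is context-free; (ii) comm(L) cap z u* v* w* is context-free for all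
words z, u, v, w; (iii) S is a finite union of linear sets with periods in two letters
and of full sections {a + d t : t in N^I, sum alpha_i t_i = k}.

Every module proves ONE of the propositions below; the propositions named under `needs` are
HYPOTHESES of the module (theorem xxx (h1 : StAAA) (h2 : StBBB) : StXXX).  Modules go to
Pool/Agent/Helper15/TS/P<NAME>.lean, theorem name `st<name>` (lower case) in the namespace
Pool.Agent.Helper15.TS.  `open scoped Classical` is not needed in the statements (Fin n -> Nat and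
Submodule do not need decidability here except in Finset.filter / image: use `classical`).
-/

namespace Pool.Agent.Helper15.TS

open Pool.Agent.Helper22.FL Pool.Agent.Helper22.CS

/-- REP.  Proof: `IsSemilinearSet.isProperSemilinearSet` (Mathlib,
ModelTheory/Arithmetic/Presburger/Semilinear/Defs) gives a finite union of proper linear sets
`a +ᵥ closure t`, `t` finite and linearly independent over `ℕ`.  Elements of the closure are the sums
`∑ p ∈ t, f p • p` (`AddSubmonoid.mem_closure_finset` or `Submodule.mem_span_finset`).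
Independence over `ℕ` gives independence of the images in `ℚ^n`: Mathlib has this as the PRIVATE
lemma `linearIndepOn_toRatVec` in Semilinear/Basic.lean (line 373); copy its proof.
(Clear denominators in a rational relation and put negative coefficients on the other side.) -/
def StREP : Prop := ∀ (n : ℕ) (S : Set (Fin n → ℕ)), IsSemilinearSet S → ∃ R, IsRep R S

/-- INV: closure under (nonerasing) inverse homomorphisms, starting with `z`.
Proof: Let `R` be the rules of a grammar for `L` (`exists_lang` in Helper22/FL/Big.lean).  Work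
with buffers `s : List T`, from the FINITE set `F` of all suffixes of `z` and of all `h a`.
Define the reading relation `Rd s v w s'` (`s v s' : List T`, `w : List A`) inductively by:
`Rd s [] [] s`; `Rd (t :: s) (t :: v) w s'` if `Rd s v w s'`;
`Rd [] (t :: v) (a :: w) s'` if `h a = t :: s1` and `Rd s1 v w s'`.  Facts (induction on `v`):
`Rd s (v1 ++ v2) w s' ↔ ∃ m w1 w2, w = w1 ++ w2 ∧ Rd s v1 w1 m ∧ Rd m v2 w2 s'`;
`Rd s v w s' → s ++ w.flatMap h = v ++ s'`; and conversely (h nonerasing)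
`s ++ w.flatMap h = v → Rd s v w []`; if `s ∈ F` then `m, s' ∈ F`.
Nonterminals `(s, X, s')`, rules `(s, r.input, s') → γ` for `r ∈ R`, `s, s' ∈ F`, `γ` an annotation
of `r.output` from `s` to `s'`, where the annotations are defined by recursion like `Ann` in
Helper22/FL/Closure.lean: `Ann p [] γ q` iff `γ = [] ∧ p = q`; `Ann p (terminal t :: α) γ q` iff
(`p = t :: p'` and `Ann p' α γ q`) or (`p = []`, `h a = t :: p'`, `γ = terminal a :: γ'`,
`Ann p' α γ' q`); `Ann p (nonterminal X :: α) γ q` iff `γ = nonterminal (p, X, m) :: γ'`, `m ∈ F`,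
`Ann m α γ' q`.  Finiteness, soundness and completeness exactly like `annRules_finite`,
`ann_sound`, `ann_complete`, `isContextFree_inter` in that file, with
`I (s, X, s') = {w | ∃ v ∈ lang R X, Rd s v w s'}`.  Start symbol `(z, X0, [])`. -/
def StINV : Prop := ∀ (A T : Type) [Finite A] (L : Language T) (h : A → List T) (z : List T),
  (∀ a, h a ≠ []) → L.IsContextFree →
    Language.IsContextFree ({w | z ++ w.flatMap h ∈ L} : Language A)

/-- HOM: closure under homomorphisms, starting with a fixed word.  Proof: replace every terminal `a` in the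
rules of a grammar for `L` by the terminals of the word `h a`; add a new start symbol `none` with the
one rule `none → z X0` (terminals of `z`, then the old start symbol).  Like `isContextFree_map` and
`isContextFree_sup` in Helper22/FL/Closure.lean. -/
def StHOM : Prop := ∀ (A T : Type) (L : Language A) (h : A → List T) (z : List T),
  L.IsContextFree →
    Language.IsContextFree ({x | ∃ w ∈ L, x = z ++ w.flatMap h} : Language T)

/-- PMP: the pumping property (needs INV).
Proof: `h : Fin 3 → List (Fin n)`, `parikh (h j) = q j`, `h j ≠ []`, and `z` with `parikh z = c`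
(every vector is the Parikh vector of a word).  By INV applied to the context-free language
`comLang S ⊓ threeStar z (h 0) (h 1) (h 2)` and intersection with the blocks `0^* 1^* 2^*`
(`isContextFree_inter` with `patRuns id`, `patRuns_iff`, in Helper22/FL/Pattern.lean) the language
`Λ = {w ∈ 0^* 1^* 2^* | c + ∑ (count j w) q_j ∈ S}` is context-free (for `w ∈ 0^* 1^* 2^*` the word
`z ++ h(w)` is in `threeStar`; `parikh (w.flatMap h) = ∑ (count j w) q_j`).
`ogden` (Helper22/FL/Ogden.lean) with the letter `1` gives `K := max p 1`.  For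
`w = 0^{k 0} 1^{k 1} 2^{k 2}`, `w = u v x y z'`, all `u v^i x y^i z'` are in `Λ`.
As `u v v x y y z'` is sorted (`mem_blocks_iff`: Pairwise ≤), all letters of `v` are equal
and all letters of `y` are equal, and letters of `v` are `≤` letters of `y`.  `ρ j = count j v +
count j y`.  `1 ≤ ρ 1 ≤ K`.  If `ρ 0 ≠ 0` and `ρ 2 ≠ 0` then there are letters 0, 1, 2 in the words `v`, `y`
each of which has only one kind of letter: impossible.
The word with exponent `i + 1` has count `k j + i * ρ j`. -/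
def StPMP : Prop := ∀ (n : ℕ) (S : Set (Fin n → ℕ)), TestCF S →
  ∀ (c : Fin n → ℕ) (q : Fin 3 → Fin n → ℕ), (∀ j, q j ≠ 0) →
    ∃ K : ℕ, 1 ≤ K ∧ ∀ k : Fin 3 → ℕ, c + ∑ j, k j • q j ∈ S → K ≤ k 1 →
      ∃ ρ : Fin 3 → ℕ, 1 ≤ ρ 1 ∧ ρ 1 ≤ K ∧ (ρ 0 = 0 ∨ ρ 2 = 0) ∧
        ∀ i : ℕ, c + ∑ j, (k j + i * ρ j) • q j ∈ S

/-- LINE.  Proof.  For every `s`, pigeonhole over the infinitely many `i`: there are `r_s ∈ R` and
infinitely many `i` with `b + M_s v + i w_s ∈ lin r_s.1 r_s.2`, with coefficient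
vectors `t_i`.  Dickson's lemma for functions on the finite set `r_s.2` (well quasi-order of
`ι → ℕ`, `ι` finite: e.g. `exists_monotone_subseq`/`Pi.isPWO`/`WellQuasiOrdered`; see also
Helper22/CS/Dickson.lean) gives `i < i'` with `t_i ≤ t_{i'}` on `r_s.2`, so
`(i' - i) w_s = ∑ (t_{i'} - t_i)_p p`; the `p` with positive coefficient have
`letters p ⊆ letters w_s ⊆ I`.  Hence `toQ w_s ∈ spQ (restr r_s.2 I)`.  Fix `i_s := i`, `t^s :=` its
coefficients.  Pigeonhole: `r_s = r` for infinitely many `s`; Dickson again: `s < s'` among these with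
`t^s ≤ t^{s'}` on `r.2`.  So `(M_{s'} - M_s) v + i_{s'} w_{s'} - i_s w_s = ∑ (t^{s'} - t^s)_p p`
(in `ℚ^n`); for `j ∉ I` the left side has coordinate `0`, so the `p` with positive coefficient
have letters in `I`: the right side is in `spQ (restr r.2 I)`, and so is `(M_{s'} - M_s) v`.
Answer: `r`, `s`, `i_s`. -/
def StLINE : Prop := ∀ (n : ℕ) (S : Set (Fin n → ℕ)) R, IsRep R S →
  ∀ (I : Finset (Fin n)) (b v : Fin n → ℕ) (M : ℕ → ℕ) (w : ℕ → Fin n → ℕ), StrictMono M →
    letters v ⊆ I → (∀ s, letters (w s) ⊆ I) → (∀ s i : ℕ, b + M s • v + i • w s ∈ S) →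
      ∃ r ∈ R, ∃ s i : ℕ, b + M s • v + i • w s ∈ lin r.1 r.2 ∧
        toQ v ∈ spQ (restr r.2 I) ∧ toQ (w s) ∈ spQ (restr r.2 I)

/-- GENA.  Proof.  Enumerate `P` by an injective `e : (Fin n → ℕ) → ℕ` on `P` and put
`t p = N ^ (e p)`.  For `V ∈ 𝒱` not containing all `toQ p`, `p ∈ P`, there is a linear functional
`φ` with `φ = 0` on `V` and `φ (toQ p) ≠ 0` for some `p ∈ P`; the polynomial
`∑ φ (toQ p) X ^ (e p)` is not zero, so has finitely many roots; take `N ≥ 1` not a root of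
any of these finitely many polynomials.  (Or: induction on `P` or `Subspace.biUnion_ne_univ...`.) -/
def StGENA : Prop := ∀ (n : ℕ) (P : Finset (Fin n → ℕ))
  (𝒱 : Finset (Submodule ℚ (Fin n → ℚ))),
    ∃ t : (Fin n → ℕ) → ℕ, (∀ p, 1 ≤ t p) ∧
      ∀ V ∈ 𝒱, toQ (∑ p ∈ P, t p • p) ∈ V → ∀ p ∈ P, toQ p ∈ V

/-- GENB.  Proof.  `Q_I` = vectors supported in `I`, dimension `|I|`.  Every `V ∈ 𝒱`
has dimension at most `|I| - 2`, so `V ∩ Q_I` is a proper subspace of `Q_I`; a finite union of proper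
subspaces of a space over the infinite field `ℚ` is not everything
(`Subspace.biUnion_ne_univ_of_top_notMem` applied inside `Q_I`), so there is `g1 ∈ Q_I` outside of all
`V`; then `V + ℚ g1` has dimension at most `|I| - 1`, so there is `g2 ∈ Q_I` outside of all `V + ℚ g1`.
Multiply by a common denominator to make them integral.  If `β g1 + γ g2 ∈ V` then
`γ = 0` (else `g2 ∈ V + ℚ g1`), then `β = 0` (else `g1 ∈ V`). -/
def StGENB : Prop := ∀ (n : ℕ) (I : Finset (Fin n)) (𝒱 : Finset (Submodule ℚ (Fin n → ℚ))),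
  (∀ V ∈ 𝒱, Module.finrank ℚ V + 2 ≤ I.card) →
    ∃ g1 g2 : Fin n → ℤ, (∀ i, i ∉ I → g1 i = 0 ∧ g2 i = 0) ∧
      ∀ V ∈ 𝒱, ∀ β γ : ℚ, (fun i => β * (g1 i : ℚ) + γ * (g2 i : ℚ)) ∈ V → β = 0 ∧ γ = 0

/-- MOD.  Proof.  The integer vectors `z` with `toQ z ∈ spQ P` form a submodule of `ℤ^n`,
finitely generated (Noetherian); each generator `z_l` is a rational combination of `P`, so
some `d_l ≥ 1` makes `d_l z_l` an integer combination; `d` = product of the `d_l`. -/
def StMOD : Prop := ∀ (n : ℕ) (P : Finset (Fin n → ℕ)), ∃ d : ℕ, 1 ≤ d ∧ IsMod P d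

/-- HYP.  Proof.  `spQ P` is contained in `Q_I` (vectors supported in `I`), of dimension
`|I|`, with codimension one.  So there is a linear functional on `Q_I` with kernel `spQ P` (e.g. through
the quotient, of dimension one); extend by zero; multiply by a common denominator; it is
not zero on `Q_I`, so some `α_i ≠ 0`, `i ∈ I`. -/
def StHYP : Prop := ∀ (n : ℕ) (I : Finset (Fin n)) (P : Finset (Fin n → ℕ)),
  (∀ p ∈ P, letters p ⊆ I) → lettersOf P = I → Module.finrank ℚ (spQ P) + 1 = I.card →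
    ∃ α : Fin n → ℤ, IsHyp I P α

/-- DEEP.  Proof.  `Y` is a finite union of linear sets `c + closure t`.  If for each of
them some `i ∈ I` is a letter of no period then `y i = c i` on this piece; take `B` larger than all
`c i`: contradiction.  So for one of them every `i ∈ I` is a letter of a period: `e = c`, `w =` the
sum of all the periods. -/
def StDEEP : Prop := ∀ (n : ℕ) (Y : Set (Fin n → ℕ)), IsSemilinearSet Y →
  ∀ I : Finset (Fin n), (∀ B : ℕ, ∃ y ∈ Y, ∀ i ∈ I, B ≤ y i) →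
    ∃ e w : Fin n → ℕ, (∀ i ∈ I, 1 ≤ w i) ∧ ∀ τ : ℕ, e + τ • w ∈ Y

/-- CLS.  Proof.  Intersection of finitely many semilinear sets (`IsSemilinearSet.inter`,
`iInter`): `{y | y i = x i}` and `{y | ∑ α_i y_i = ∑ α_i x_i}` are given by linear equations between
natural numbers (separate positive and negative parts of `α`;
`Nat.isSemilinearSet_setOfPred_mulVec_eq` or `isSemilinearSet_setOfPred_eq`), and
`{y | d ∣ y i - x i}` is the preimage (`IsSemilinearSet.preimage`) under `y ↦ y i` of an ultimately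
periodic subset of `ℕ` (`Nat.isSemilinearSet_iff_ultimately_periodic`), or the projection of
solutions of an equation. -/
def StCLS : Prop := ∀ (n : ℕ) (I : Finset (Fin n)) (x : Fin n → ℕ) (d : ℕ) (α : Fin n → ℤ),
  IsSemilinearSet {y : Fin n → ℕ | (∀ i, i ∉ I → y i = x i) ∧
    (∀ i, (d : ℤ) ∣ (y i : ℤ) - x i) ∧ ∑ i, α i * ((y i : ℤ) - x i) = 0}

/-- FUL (codimension at least one).  Proof.  `P' = restr r.2 I` is independent (subset of an independent
set), so `finrank (spQ P') = P'.card` (`finrank_span_set_eq_card` or similar; `toQ` is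
injective).  `lettersOf P' ⊆ I` by definition, and `I ⊆ lettersOf P'`: for `i ∈ I`, if no `p ∈ P'`
has the letter `i`, then all elements of `spQ P'` vanish at `i`, but `toQ v` does not.
`spQ P' ⊆ Q_I`, so `P'.card ≤ I.card`.  If `P'.card = I.card (≥ 3)` then `Slim` applied to
`lin r.1 P' ⊆ lin r.1 r.2 ⊆ S` gives `P'.card < (lettersOf P').card = I.card`, contradiction. -/
def StFUL : Prop := ∀ (n : ℕ) (S : Set (Fin n → ℕ)) R, IsRep R S → Slim S →
  ∀ r ∈ R, ∀ (I : Finset (Fin n)) (v : Fin n → ℕ), 3 ≤ I.card → (∀ i ∈ I, 1 ≤ v i) →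
    toQ v ∈ spQ (restr r.2 I) →
      lettersOf (restr r.2 I) = I ∧ Module.finrank ℚ (spQ (restr r.2 I)) + 1 ≤ I.card

/-- DIR (needs LINE, GENA, FUL).  Proof.  GENA for `P` and `𝒱 = {spQ (restr r.2 I) : r ∈ R}` gives
`t`; `v = ∑ t_p p`; `v_i ≥ 1` for `i ∈ I = lettersOf P`.  Given `b, M, w`, LINE gives `r, s, i` with `toQ v`
and `toQ (w s)` in `V = spQ (restr r.2 I)`.  By the choice of `t`, all `toQ p ∈ V`, so
`spQ P ⊆ V`; `spQ P` has dimension `|I| - 1` (it is the kernel of `α ≠ 0` on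
the `|I|`-dimensional `Q_I`: `IsHyp`) and `V` has dimension at most `|I| - 1` by FUL; so `V = spQ P`, and
`toQ (w s) ∈ spQ P` means `∑ α_i (w s)_i = 0`. -/
def StDIR : Prop := ∀ (n : ℕ) (S : Set (Fin n → ℕ)) R, IsRep R S → Slim S →
  ∀ (I : Finset (Fin n)) (P : Finset (Fin n → ℕ)) (α : Fin n → ℤ), 3 ≤ I.card → IsHyp I P α →
    ∃ t : (Fin n → ℕ) → ℕ, (∀ p, 1 ≤ t p) ∧
      ∀ (b : Fin n → ℕ) (M : ℕ → ℕ) (w : ℕ → Fin n → ℕ), StrictMono M →
        (∀ s, letters (w s) ⊆ I) → (∀ s i : ℕ, b + M s • (∑ p ∈ P, t p • p) + i • w s ∈ S) →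
          ∃ s, ∑ i, α i * (w s i : ℤ) = 0

/-- CLA (needs PMP, LINE, GENA, GENB, FUL).  Proof.  GENA for `P` and `𝒱 = {spQ (restr r.2 I) : r ∈ R}`:
`t`, `v = ∑ t_p p`, `v_i ≥ 1` on `I`, `letters v = I`.  GENB for those members of `𝒱` with
`finrank + 2 ≤ |I|`: `g1, g2`.  Choose `m ≥ 1` with `m v_i ≥ |g1_i| + |g2_i| + 1` on `I`
(e.g. `m = ∑ (|g1_i| + |g2_i|) + 1`).  Let `q_0 = d (m v - g1)`, `q_1 = d (m v - g2)`,
`q_2 = d (m v + g1 + g2)` (natural vectors, not zero, letters in `I`, divisible by `d`).  PMP for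
`c', q`: `K`.  For `s : ℕ` let `k = (s + K)(1, 1, 1)`: `c' + ∑ k_j q_j = c' + 3 m d (s + K) v =
c' + d • ∑ (3 m (s + K) t_p) p ∈ S`, so there is `ρ^s`; `w_s := ∑ ρ^s_j q_j`, `M_s := 3 m d (s + K)`.
LINE (`b = c'`): `r, s, i` with `toQ v, toQ (w_s) ∈ V := spQ (restr r.2 I)`.
`x := c' + M_s v + i w_s ∈ lin r.1 r.2`, hence `lin x (restr r.2 I) ⊆ lin r.1 r.2 ⊆ S`.
FUL: `lettersOf (restr r.2 I) = I`, `finrank V + 1 ≤ |I|`.  By GENA `toQ p ∈ V` for `p ∈ P`.
`w_s = d (m (ρ_0 + ρ_1 + ρ_2) v + β g1 + γ g2)`, `β = ρ_2 - ρ_0`, `γ = ρ_2 - ρ_1`,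
so `β g1 + γ g2 ∈ V`.  If `finrank V + 2 ≤ |I|` then `β = γ = 0` by GENB, so
`ρ_0 = ρ_1 = ρ_2 ≥ 1`, contradicting `ρ_0 = 0 ∨ ρ_2 = 0`.  So `finrank V + 1 = |I|`.
`toQ x - toQ c' = M_s v + i w_s ∈ V`, and `x = c' + d • z` with `z = 3 m (s + K) v + i (w_s / d)`. -/
def StCLA : Prop := ∀ (n : ℕ) (S : Set (Fin n → ℕ)) R, IsRep R S → Slim S → TestCF S →
  ∀ (I : Finset (Fin n)) (P : Finset (Fin n → ℕ)) (c' : Fin n → ℕ) (d : ℕ), 3 ≤ I.card →
    lettersOf P = I → 1 ≤ d → (∀ t : (Fin n → ℕ) → ℕ, c' + d • ∑ p ∈ P, t p • p ∈ S) →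
      ∃ r ∈ R, ∃ x z : Fin n → ℕ, lin x (restr r.2 I) ⊆ S ∧ lettersOf (restr r.2 I) = I ∧
        Module.finrank ℚ (spQ (restr r.2 I)) + 1 = I.card ∧
        (∀ p ∈ P, toQ p ∈ spQ (restr r.2 I)) ∧ toQ x - toQ c' ∈ spQ (restr r.2 I) ∧
        x = c' + d • z ∧ ∀ i, i ∉ I → z i = 0

/-- CLB (needs PMP, DIR, DEEP, CLS).  Proof.  Let `C` be the set of CLS (for `x, d, α`) and
`Y = C \ S`, semilinear (`IsSemilinearSet.sdiff`).  Suppose the claim fails: then DEEP gives `e, w`
with `w_i ≥ 1` on `I` and `e + τ w ∈ Y` for all `τ`.  So `e ∈ C`, `w_i = 0` off `I`, `∑ α_i w_i = 0`.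
`P` is not empty and `v := ∑ t_p p` (`t` from DIR) satisfies `v_i ≥ 1` on `I`, `v_i = 0` off `I`,
`∑ α_i v_i = 0` (as `toQ v ∈ spQ P`).  Choose `A, B ≥ 2` with `A v_i > w_i` and `B w_i > v_i` on `I`
and put `w1 = A v - w`, `w2 = B w - v` (natural vectors, positive on `I`, zero off `I`, `α`-null).
By `IsHyp` some `i0 ∈ I` has `α_{i0} ≠ 0`; `g` = unit vector of `i0`.  `q_0 = w1`, `q_1 = w2 + g`,
`q_2 = w2 - g` (nonzero: positive on the other letters of `I`).
With `κ_1 = κ_2`: `∑ κ_j q_j = κ_0 w1 + 2 κ_1 w2`.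
(a) For `κ' = (2 l B, l, l)`: the sum is `2 l (A B - 1) v`.  Since `e ∈ C`, the vector
`z = (e - x)/d` is integral, supported in `I`, `α`-null, so by the modulus hypothesis
`e - x = ∑ m_p p` with integers `m_p`; so `e + N v ∈ lin x P ⊆ S` for all `N ≥ N1 := max |m_p|`
(as `t_p ≥ 1`).  So `e + ∑ κ'_j q_j ∈ S` as soon as `2 l (A B - 1) ≥ N1`, e.g. `l ≥ N1`.
(b) For `κ = (2 l B, l A B, l A B)`: the sum is
`2 l B (A v - w) + 2 l A B (B w - v) = 2 l B (A B - 1) w`, so `e + ∑ κ_j q_j ∉ S`.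
PMP for `e, q`: `K ≥ 1`.  For `s : ℕ` let `l_s = K! (s + K + N1)` (`≥ K, ≥ N1`): PMP for `κ'` gives
`ρ^s`; let `w_s = ∑ ρ^s_j q_j`, `M_s = 2 l_s (A B - 1)` (strictly increasing):
`e + M_s v + i w_s ∈ S` for all `i`.  DIR: there is `s` with `∑ α_i (w_s)_i = 0`; as
`w1, w2` are `α`-null this is `(ρ_1 - ρ_2) α_{i0} = 0`, so `ρ_1 = ρ_2 ≥ 1`, hence
`ρ_0 = 0`, `ρ = b (0, 1, 1)` with `1 ≤ b ≤ K`, `b ∣ K!`.  With `i = l_s (A B - 1) / b`:
`κ' + i ρ = (2 l_s B, l_s + l_s (A B - 1), same) = κ`, so `e + ∑ κ_j q_j ∈ S`: contradiction. -/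
def StCLB : Prop := ∀ (n : ℕ) (S : Set (Fin n → ℕ)) R, IsSemilinearSet S → IsRep R S →
  Slim S → TestCF S → ∀ (I : Finset (Fin n)) (P : Finset (Fin n → ℕ)) (α : Fin n → ℤ)
    (x : Fin n → ℕ) (d : ℕ), 3 ≤ I.card → IsHyp I P α → lin x P ⊆ S → 1 ≤ d → IsMod P d →
      ∃ B : ℕ, ∀ y : Fin n → ℕ, (∀ i, i ∉ I → y i = x i) → (∀ i, (d : ℤ) ∣ (y i : ℤ) - x i) →
        ∑ i, α i * ((y i : ℤ) - x i) = 0 → (∀ i ∈ I, B ≤ y i) → y ∈ S

/-- CAB (needs CLA, CLB, HYP).  Proof.  CLA gives `r, x, z`; `P' := restr r.2 I`; HYP gives `α` with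
`IsHyp I P' α`; CLB (for `P', x`) gives `B0`.  Let `a_i = x_i + d B0` for `i ∈ I` and `a_i = x_i` off `I`,
`k = - ∑_{i ∈ I} α_i B0`.  If `y = a + d u` is in `sec I a d α k`
then `y_i ≥ B0` on `I` (as `d ≥ 1`), `y_i - x_i = d (B0 + u_i)` on `I`, so
`∑ α_i (y_i - x_i) = d (∑_{i ∈ I} α_i B0 + ∑ α_i u_i) = 0` and CLB gives `y ∈ S`.  Conversely let
`y = c' + d ∑ t_p p` with `y_i ≥ B := max_i a_i` on `I`.  `y_i - x_i = d (∑ t_p p_i - z_i)`, and
`∑ α_i (y_i - x_i) = 0` because `toQ y - toQ x = d ∑ t_p toQ p - (toQ x - toQ c')` is in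
`spQ P'`.  So `u_i := ∑ t_p p_i - z_i - B0` (for `i ∈ I`; it is `≥ 0` since `y_i ≥ a_i` and `d ≥ 1`)
satisfies `y = a + d u`, `∑ α_i u_i = k`. -/
def StCAB : Prop := ∀ (n : ℕ) (S : Set (Fin n → ℕ)) R, IsSemilinearSet S → IsRep R S →
  Slim S → TestCF S → ∀ d : ℕ, 1 ≤ d → (∀ r ∈ R, ∀ J : Finset (Fin n), IsMod (restr r.2 J) d) →
    ∀ (I : Finset (Fin n)) (P : Finset (Fin n → ℕ)) (c' : Fin n → ℕ), 3 ≤ I.card →
      lettersOf P = I → (∀ t : (Fin n → ℕ) → ℕ, c' + d • ∑ p ∈ P, t p • p ∈ S) →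
        ∃ (a : Fin n → ℕ) (α : Fin n → ℤ) (k : ℤ) (B : ℕ), sec I a d α k ⊆ S ∧
          ∀ t : (Fin n → ℕ) → ℕ, (∀ i ∈ I, B ≤ (c' + d • ∑ p ∈ P, t p • p) i) →
            c' + d • ∑ p ∈ P, t p • p ∈ sec I a d α k

/-- COV (needs nothing; the conclusion of CAB is a hypothesis).  Proof: strong induction on `P.card`.
Let `I = lettersOf P`.  If `I.card ≤ 2` take `𝒟 = {lin c P}`.  Otherwise `lin c P` is the union of
the sets `{c' + d ∑ t_p p}` with `c' = c + ∑ f_p p`, `f_p < d` on `P` (finitely many `c'`; division with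
remainder of the coefficients).  For each of them, the hypothesis gives `a, α, k, B`: the points with
all coordinates in `I` at least `B` are in `sec I a d α k`.  For a point with coordinate `y_i < B`,
`i ∈ I`: let `p1 ∈ P` with `p1 i ≥ 1` (`i ∈ lettersOf P`); its coefficient satisfies `d t_{p1} ≤ y_i < B`
so `t_{p1} < B`; so the point is in `lin (c' + d τ p1) (P.erase p1) ` with `τ = t_{p1} < B`
(its other coefficients are `d t_p`), a linear set contained in `S`
(it is contained in `lin c P`), with fewer periods: use the induction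
hypothesis.  Finite unions of finite families. -/
def StCOV : Prop := ∀ (n : ℕ) (S : Set (Fin n → ℕ)) (d : ℕ), 1 ≤ d →
  (∀ (I : Finset (Fin n)) (P : Finset (Fin n → ℕ)) (c' : Fin n → ℕ), 3 ≤ I.card →
      lettersOf P = I → (∀ t : (Fin n → ℕ) → ℕ, c' + d • ∑ p ∈ P, t p • p ∈ S) →
        ∃ (a : Fin n → ℕ) (α : Fin n → ℤ) (k : ℤ) (B : ℕ), sec I a d α k ⊆ S ∧
          ∀ t : (Fin n → ℕ) → ℕ, (∀ i ∈ I, B ≤ (c' + d • ∑ p ∈ P, t p • p) i) →
            c' + d • ∑ p ∈ P, t p • p ∈ sec I a d α k) →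
  ∀ (P : Finset (Fin n → ℕ)) (c : Fin n → ℕ), lin c P ⊆ S →
    ∃ 𝒟 : Set (Set (Fin n → ℕ)), 𝒟.Finite ∧
      (∀ D ∈ 𝒟, (IsTwoLetter D ∨ IsSection D) ∧ D ⊆ S) ∧ lin c P ⊆ ⋃₀ 𝒟

/-- TWO.  Proof: `lin c P = periodSet {c} P` and `isContextFree_of_cuttable` (Helper22/CS/Suff.lean); `P`
is `Cuttable`: let `F` be a face of `P` with a nonzero vector.  If some `p ∈ F` has exactly one letter,
`Splits F` holds by its first alternative.  Otherwise all nonzero `p ∈ F` have at least two letters,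
hence exactly two (`(lettersOf P).card ≤ 2`), `letters p = lettersOf P = {a, b}`: second alternative with
`A = {a}`, `B = {b}`. -/
def StTWO : Prop := ∀ (n : ℕ) (c : Fin n → ℕ) (P : Finset (Fin n → ℕ)),
  (lettersOf P).card ≤ 2 → (comLang (lin c P)).IsContextFree

/-- WTG: generalisation of Helper22/FL/Weight.lean from the bound 2 to a general bound.
Proof: copy that file with `Icc (-2) 2` replaced by `Icc (-B) B`, `B ≥ 1` an integer with
`|α_i| ≤ B`, `|k| ≤ B`, and `W i = {α i}`; the splitting argument is the same (first initial segment whose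
weight is `≥ d - B`, resp. `≤ d + B`).  `Wt W w d ↔ ∑ α_i (count i w) = d`. -/
def StWTG : Prop := ∀ (n : ℕ) (α : Fin n → ℤ) (k : ℤ),
  Language.IsContextFree ({w | ∑ i, α i * (w.count i : ℤ) = k} : Language (Fin n))

/-- REG.  Proof: `isContextFree_inter` (Helper22/FL/Closure.lean) with a counting automaton.  Let
`N = ∑ a_i + 1`, `φ : ℕ → ℕ`, `φ x = x` if `x < N`, else `N + (x - N) % d`; so `φ x < N + d`, and
`φ (φ x + 1) = φ (x + 1)`, and `φ x` determines whether `x = a_i`, whether `x ≥ a_i` and the class of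
`x - a_i` modulo `d`.  States `Q = Fin n → Fin (N + d)`; `rel p w q` iff `q i = φ (p i + count i w)` for all
`i`.  Start at `0`; the condition on the final state is a finite union over accepting states `q`
(`isContextFree_sup` over a finite set), or use an automaton with `Option`/pairs.
Alternative: one letter `i` at a time (intersect successively for `i : Fin n`), with the
states `Fin (N + d)`; each condition is a finite union of `count i w ∈ class q`. -/
def StREG : Prop := ∀ (n : ℕ) (L : Language (Fin n)) (I : Finset (Fin n)) (a : Fin n → ℕ) (d : ℕ),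
  1 ≤ d → L.IsContextFree → Language.IsContextFree ({w | w ∈ L ∧ (∀ i, i ∉ I → w.count i = a i) ∧
    ∀ i ∈ I, a i ≤ w.count i ∧ d ∣ w.count i - a i} : Language (Fin n))

/-- SEC (needs WTG, REG).  Proof: `parikh w ∈ sec I a d α k` iff `count i w = a i` off `I`,
`a i ≤ count i w` and `d ∣ count i w - a i` on `I`, and
`∑_i α'_i (count i w) = d k + ∑ α'_i a_i` where `α'_i = α_i` on `I` and `0` off `I`
(`count i w = a_i + d t_i`). -/
def StSEC : Prop := ∀ (n : ℕ) (I : Finset (Fin n)) (a : Fin n → ℕ) (d : ℕ) (α : Fin n → ℤ) (k : ℤ),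
  1 ≤ d → (comLang (sec I a d α k)).IsContextFree

/-- SLI (needs INV, HOM).  Proof: let `h : Fin 3 → List (Fin n)` be `![u, v, w]`.  By INV and
intersection with the blocks `0^* 1^* 2^*` (`isContextFree_inter`, `patRuns id`, `patRuns_iff` in
Helper22/FL/Pattern.lean) the language `Λ = {x ∈ 0^* 1^* 2^* | z ++ h(x) ∈ comLang S}` is
context-free; `comLang S ⊓ threeStar z u v w = {z ++ h(x) : x ∈ Λ}` and HOM applies. -/
def StSLI : Prop := ∀ (n : ℕ) (S : Set (Fin n → ℕ)), (comLang S).IsContextFree → TestCF S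

end Pool.Agent.Helper15.TS
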